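import Pool.Agent.V7H96.HG.Indep

set_option autoImplicit false

/-!
# Colourings of graphs of low rank without a given induced subgraph
-/

namespace Pool.Agent.V7H96.HG

open Finset

theorem cover {V : Type*} [DecidableEq V] (G : SimpleGraph V) (Q : ℕ)
    (hI : ∀ m, 0 < m → ∀ U : Finset V, Q * m ≤ U.card →
      ∃ I ⊆ U, m ≤ I.card ∧ ∀ x ∈ I, ∀ y ∈ I, ¬ G.Adj x y) (j : ℕ) :
    ∀ U : Finset V, U.card < 2 ^ j * Q → ∃ c : V → ℕ, (∀ x ∈ U, c x < Q * (j + 1)) ∧
      ∀ x ∈ U, ∀ y ∈ U, G.Adj x y → c x ≠ c y := by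
  classical
  induction j with
  | zero =>
    intro U hU
    refine ⟨fun x => if h : x ∈ U then (U.equivFin ⟨x, h⟩ : ℕ) else 0, fun x hx => ?_,
      fun x hx y hy hxy h => ?_⟩
    · simp only [hx, dite_true]
      have := (U.equivFin ⟨x, hx⟩).2
      simp only [pow_zero, one_mul] at hU
      omega
    · simp only [hx, hy, dite_true] at h
      have h1 := U.equivFin.injective (Fin.ext h)
      have h2 : x = y := congrArg Subtype.val h1
      subst h2
      exact G.loopless.irrefl _ hxy
  | succ j ih =>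
    have key : ∀ i : ℕ, ∀ U : Finset V, U.card < 2 ^ j * Q + i * 2 ^ j →
        ∃ c : V → ℕ, (∀ x ∈ U, c x < Q * (j + 1) + i) ∧
          ∀ x ∈ U, ∀ y ∈ U, G.Adj x y → c x ≠ c y := by
      intro i
      induction i with
      | zero =>
        intro U hU
        simpa using ih U (by simpa using hU)
      | succ i ihi =>
        intro U hU
        by_cases hlt : U.card < 2 ^ j * Q + i * 2 ^ j
        · obtain ⟨c, h1, h2⟩ := ihi U hlt
          exact ⟨c, fun x hx => by have := h1 x hx; omega, h2⟩
        · push Not at hlt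
          obtain ⟨I, hIU, hIm, hI'⟩ := hI (2 ^ j) (by positivity) U (by
            calc Q * 2 ^ j = 2 ^ j * Q := by ring
              _ ≤ 2 ^ j * Q + i * 2 ^ j := Nat.le_add_right _ _
              _ ≤ _ := hlt)
          obtain ⟨c, h1, h2⟩ := ihi (U \ I) (by
            have h3 : (U \ I).card = U.card - I.card := card_sdiff_of_subset hIU
            have h4 : 0 < 2 ^ j := by positivity
            have h6 : I.card ≤ U.card := card_le_card hIU
            have h5 : (i + 1) * 2 ^ j = i * 2 ^ j + 2 ^ j := by ring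
            omega)
          refine ⟨fun x => if x ∈ I then Q * (j + 1) + i else c x, fun x hx => ?_,
            fun x hx y hy hxy => ?_⟩
          · by_cases hxI : x ∈ I
            · simp only [hxI, if_true]
              omega
            · simp only [hxI, if_false]
              have := h1 x (mem_sdiff.2 ⟨hx, hxI⟩)
              omega
          · by_cases hxI : x ∈ I <;> by_cases hyI : y ∈ I <;> simp only [hxI, hyI, if_true, if_false]
            · exact absurd hxy (hI' x hxI y hyI)
            · have := h1 y (mem_sdiff.2 ⟨hy, hyI⟩)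
              omega
            · have := h1 x (mem_sdiff.2 ⟨hx, hxI⟩)
              omega
            · exact h2 x (mem_sdiff.2 ⟨hx, hxI⟩) y (mem_sdiff.2 ⟨hy, hyI⟩) hxy
    intro U hU
    obtain ⟨c, h1, h2⟩ := key Q U (by
      calc U.card < 2 ^ (j + 1) * Q := hU
        _ = 2 ^ j * Q + Q * 2 ^ j := by ring)
    exact ⟨c, fun x hx => by
      have := h1 x hx
      calc c x < Q * (j + 1) + Q := this
        _ = Q * (j + 1 + 1) := by ring, h2⟩

/-- A colouring with few colours. -/
theorem coloring {V : Type*} [Fintype V] [DecidableEq V] (G : SimpleGraph V) (Q : ℕ) (hQ : 0 < Q)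
    (hI : ∀ m, 0 < m → ∀ U : Finset V, Q * m ≤ U.card →
      ∃ I ⊆ U, m ≤ I.card ∧ ∀ x ∈ I, ∀ y ∈ I, ¬ G.Adj x y) :
    ∃ c : V → ℕ, (∀ x, c x < Q * (prk G.Adj + 2)) ∧ ∀ x y, G.Adj x y → c x ≠ c y := by
  classical
  obtain ⟨T, -, hT, hdet⟩ := determine G.Adj (univ : Finset V)
  rw [prk_swap] at hT
  set f : V → Finset V := fun x => T.filter fun y => G.Adj x y with hf
  have hdet' : ∀ x x', f x = f x' → ∀ y, (G.Adj x y ↔ G.Adj x' y) := by
    intro x x' h y
    refine hdet x x' (fun z hz => ?_) y (mem_univ _)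
    have := Finset.ext_iff.1 h z
    simpa [hf, hz] using this
  set ρ : V → V := fun x => (⟨x, rfl⟩ : ∃ z, f z = f x).choose with hρ
  have hρf : ∀ x, f (ρ x) = f x := fun x => (⟨x, rfl⟩ : ∃ z, f z = f x).choose_spec
  have hρe : ∀ x y, f x = f y → ρ x = ρ y := by
    intro x y h
    simp only [hρ]
    congr 1
    funext z
    rw [h]
  have hcard : (univ.image ρ).card ≤ 2 ^ prk G.Adj := by
    have h1 : (univ.image ρ).card ≤ (univ.image f).card := by
      have : univ.image f = (univ.image ρ).image f := by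
        ext s
        simp only [mem_image, mem_univ, true_and]
        constructor
        · rintro ⟨x, rfl⟩
          exact ⟨ρ x, ⟨x, rfl⟩, hρf x⟩
        · rintro ⟨_, ⟨x, rfl⟩, rfl⟩
          exact ⟨ρ x, rfl⟩
      rw [this]
      refine (card_image_of_injOn ?_).ge
      intro a ha b hb hab
      simp only [coe_image, coe_univ, Set.image_univ, Set.mem_range] at ha hb
      obtain ⟨x, rfl⟩ := ha
      obtain ⟨y, rfl⟩ := hb
      rw [hρf, hρf] at hab
      exact hρe x y hab
    have h2 : univ.image f ⊆ T.powerset := by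
      intro s hs
      obtain ⟨x, -, rfl⟩ := mem_image.1 hs
      exact mem_powerset.2 (filter_subset _ _)
    calc _ ≤ _ := h1
      _ ≤ T.powerset.card := card_le_card h2
      _ = 2 ^ T.card := card_powerset _
      _ ≤ _ := Nat.pow_le_pow_right (by norm_num) hT
  obtain ⟨c, h1, h2⟩ := cover G Q hI (prk G.Adj + 1) (univ.image ρ) (by
    calc _ ≤ 2 ^ prk G.Adj := hcard
      _ < 2 ^ (prk G.Adj + 1) := Nat.pow_lt_pow_right (by norm_num) (by omega)
      _ ≤ _ := Nat.le_mul_of_pos_right _ hQ)
  refine ⟨fun x => c (ρ x), fun x => h1 _ (mem_image_of_mem _ (mem_univ _)), fun x y hxy => ?_⟩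
  refine h2 _ (mem_image_of_mem _ (mem_univ _)) _ (mem_image_of_mem _ (mem_univ _)) ?_
  rw [hdet' (ρ x) x (hρf x), G.adj_comm, hdet' (ρ y) y (hρf y)]
  exact hxy.symm

end Pool.Agent.V7H96.HG
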