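import Pool.Agent.V7H96.HG.Pair

set_option autoImplicit false

/-!
# Large independent sets in graphs of low rank without a given induced subgraph
-/

namespace Pool.Agent.V7H96.HG

open Finset

variable {V : Type*}

/-- `N` sets of at least `m` elements of `U`, with the relation `R` between any two of them -/
def Fam (R : V → V → Prop) (N m : ℕ) (U : Finset V) : Prop :=
  ∃ S : Fin N → Finset V, (∀ i, S i ⊆ U ∧ m ≤ (S i).card) ∧
    ∀ i j, i ≠ j → ∀ x ∈ S i, ∀ y ∈ S j, R x y

theorem Fam.one (R : V → V → Prop) {m : ℕ} {U : Finset V} (h : m ≤ U.card) : Fam R 1 m U :=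
  ⟨fun _ => U, fun _ => ⟨Finset.Subset.refl _, h⟩, fun i j hij => absurd (Subsingleton.elim i j) hij⟩

theorem Fam.mono {R : V → V → Prop} {N m : ℕ} {U U' : Finset V} (h : Fam R N m U) (hU : U ⊆ U') :
    Fam R N m U' := by
  obtain ⟨S, h1, h2⟩ := h
  exact ⟨S, fun i => ⟨(h1 i).1.trans hU, (h1 i).2⟩, h2⟩

theorem Fam.add {R : V → V → Prop} (hR : ∀ x y, R x y → R y x) {N N' m : ℕ} {A A' U : Finset V}
    (h : Fam R N m A) (h' : Fam R N' m A') (hA : A ⊆ U) (hA' : A' ⊆ U)
    (hc : ∀ x ∈ A, ∀ y ∈ A', R x y) : Fam R (N + N') m U := by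
  obtain ⟨S, h1, h2⟩ := h
  obtain ⟨S', h1', h2'⟩ := h'
  refine ⟨Fin.append S S', fun i => ?_, fun i j => ?_⟩
  · refine Fin.addCases (fun i => ?_) (fun i => ?_) i
    · rw [Fin.append_left]
      exact ⟨(h1 i).1.trans hA, (h1 i).2⟩
    · rw [Fin.append_right]
      exact ⟨(h1' i).1.trans hA', (h1' i).2⟩
  · refine Fin.addCases (fun i => ?_) (fun i => ?_) i <;>
      refine Fin.addCases (fun j => ?_) (fun j => ?_) j
    · intro hij
      rw [Fin.append_left, Fin.append_left]
      exact h2 i j fun h => hij (by rw [h])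
    · intro _
      rw [Fin.append_left, Fin.append_right]
      exact fun x hx y hy => hc x ((h1 i).1 hx) y ((h1' j).1 hy)
    · intro _
      rw [Fin.append_left, Fin.append_right]
      exact fun x hx y hy => hR _ _ (hc y ((h1 j).1 hy) x ((h1' i).1 hx))
    · intro hij
      rw [Fin.append_right, Fin.append_right]
      exact h2' i j fun h => hij (by rw [h])

variable [Finite V] [DecidableEq V]

/-- Many sets with no edges between them, or many sets with all edges between them. -/
theorem rec_fam (G : SimpleGraph V) (ρ : ℕ) (hρ : 0 < ρ) (h1 : prk G.Adj ≤ ρ)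
    (h2 : prk (fun x y => ¬ G.Adj x y) ≤ ρ) {k : ℕ} (B : SimpleGraph (Fin k))
    (hB : IsEmpty (B ↪g G)) (m : ℕ) (hm : 0 < m) (n : ℕ) :
    ∀ (t w : ℕ) (_ : t + w = n) (U : Finset V), K0 k ρ ^ n * m ≤ U.card →
      Fam (fun x y => x ≠ y ∧ ¬ G.Adj x y) (2 ^ t) m U ∨ Fam G.Adj (2 ^ w) m U := by
  have hK : 0 < K0 k ρ := by
    unfold K0
    positivity
  induction n with
  | zero =>
    intro t w htw U hU
    left
    rw [(by omega : t = 0)]
    exact Fam.one _ (by simpa using hU)
  | succ n ih =>
    intro t w htw U hU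
    have hU1 : m ≤ U.card := by
      refine le_trans ?_ hU
      exact Nat.le_mul_of_pos_left m (by positivity)
    rcases Nat.eq_zero_or_pos t with rfl | ht
    · exact Or.inl (Fam.one _ hU1)
    rcases Nat.eq_zero_or_pos w with rfl | hw
    · exact Or.inr (Fam.one _ hU1)
    obtain ⟨t, rfl⟩ := Nat.exists_eq_add_of_lt ht
    obtain ⟨w, rfl⟩ := Nat.exists_eq_add_of_lt hw
    simp only [zero_add] at *
    obtain ⟨A, hA, A', hA', hd, hm1, hm2, hhom⟩ := pair G ρ hρ h1 h2 B hB (K0 k ρ ^ n * m)
      (by positivity) U (by rw [pow_succ] at hU; calc _ = K0 k ρ ^ n * K0 k ρ * m := by ring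
                                _ ≤ _ := hU)
    rcases hhom with hc | hc
    · rcases ih (t + 1) w (by omega) A hm1 with h | h
      · exact Or.inl (h.mono hA)
      rcases ih (t + 1) w (by omega) A' hm2 with h' | h'
      · exact Or.inl (h'.mono hA')
      right
      rw [pow_succ, mul_two]
      exact Fam.add (fun x y h => h.symm) h h' hA hA' hc
    · rcases ih t (w + 1) (by omega) A hm1 with h | h
      · rcases ih t (w + 1) (by omega) A' hm2 with h' | h'
        · left
          rw [pow_succ, mul_two]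
          refine Fam.add (fun x y h => ⟨h.1.symm, fun h' => h.2 h'.symm⟩) h h' hA hA'
            fun x hx y hy => ⟨fun hxy => ?_, hc x hx y hy⟩
          subst hxy
          exact Finset.disjoint_left.1 hd hx hy
        · exact Or.inr (h'.mono hA')
      · exact Or.inr (h.mono hA)

/-- the matrix of a complete graph is invertible -/
theorem unit_complete (N : ℕ) (hN : 2 ≤ N) :
    IsUnit (Matrix.of fun i j : Fin N => if i = j then (0 : ℝ) else 1) := by
  have hN1 : (N : ℝ) - 1 ≠ 0 := by
    have : (2 : ℝ) ≤ N := by exact_mod_cast hN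
    linarith
  have h : (Matrix.of fun i j : Fin N => if i = j then (0 : ℝ) else 1) *
      (Matrix.of fun i j : Fin N => (1 : ℝ) / (N - 1) - if i = j then 1 else 0) = 1 := by
    ext i j
    rw [Matrix.mul_apply]
    simp only [Matrix.of_apply]
    have h1 : ∀ l : Fin N, (if i = l then (0 : ℝ) else 1) * (1 / (N - 1) - if l = j then 1 else 0) =
        (1 / ((N : ℝ) - 1) - if l = j then 1 else 0) -
          (if i = l then (1 / ((N : ℝ) - 1) - if l = j then 1 else 0) else 0) := by
      intro l
      by_cases h : i = l <;> simp [h]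
    simp only [h1]
    rw [Finset.sum_sub_distrib, Finset.sum_ite_eq, Finset.sum_sub_distrib, Finset.sum_ite_eq']
    simp only [mem_univ, if_true, Finset.sum_const, Finset.card_univ, Fintype.card_fin,
      nsmul_eq_mul, Matrix.one_apply]
    field_simp
    ring
  exact (Matrix.isUnit_iff_isUnit_det _).2 (Matrix.isUnit_det_of_right_inverse h)

theorem fam_adj_le {V : Type*} [Fintype V] (G : SimpleGraph V) {N m : ℕ} (hN : 2 ≤ N)
    (hm : 0 < m) {U : Finset V} (h : Fam G.Adj N m U) : N ≤ prk G.Adj := by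
  obtain ⟨S, h1, h2⟩ := h
  have hne : ∀ i, ∃ x, x ∈ S i := fun i => Finset.card_pos.1 (hm.trans_le (h1 i).2)
  choose x hx using hne
  refine le_prk G.Adj N x x ?_
  have : (Matrix.of fun i j : Fin N => prow G.Adj (x i) (x j)) =
      Matrix.of fun i j : Fin N => if i = j then (0 : ℝ) else 1 := by
    ext i j
    simp only [Matrix.of_apply, prow]
    by_cases hij : i = j
    · subst hij
      simp
    · simp [hij, h2 i j hij _ (hx i) _ (hx j)]
  rw [this]
  exact unit_complete N hN

/-- In a graph of low rank without the induced subgraph `B` every set of vertices contains a large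
independent set. -/
theorem exists_indep {V : Type*} [Fintype V] [DecidableEq V] (G : SimpleGraph V) (ρ w : ℕ)
    (hρ : 0 < ρ) (h1 : prk G.Adj ≤ ρ) (h2 : prk (fun x y => ¬ G.Adj x y) ≤ ρ) {k : ℕ}
    (B : SimpleGraph (Fin k)) (hB : IsEmpty (B ↪g G)) (hw : 0 < w) (hw2 : prk G.Adj < 2 ^ w)
    (m : ℕ) (hm : 0 < m) (U : Finset V) (hU : K0 k ρ ^ (2 * w) * m ≤ U.card) :
    ∃ I ⊆ U, m ≤ I.card ∧ ∀ x ∈ I, ∀ y ∈ I, ¬ G.Adj x y := by
  rcases rec_fam G ρ hρ h1 h2 B hB m hm (2 * w) w w (by ring) U hU with h | h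
  · obtain ⟨S, h3, h4⟩ := h
    by_contra hcon
    have hed : ∀ i, ∃ x ∈ S i, ∃ y ∈ S i, G.Adj x y := by
      intro i
      by_contra hi
      push Not at hi
      exact hcon ⟨S i, (h3 i).1, (h3 i).2, hi⟩
    choose x hx y hy hxy using hed
    have : 2 ^ w ≤ prk G.Adj := by
      refine le_prk G.Adj (2 ^ w) x y ?_
      have h5 : (Matrix.of fun i j : Fin (2 ^ w) => prow G.Adj (x i) (y j)) = 1 := by
        ext i j
        simp only [Matrix.of_apply, prow, Matrix.one_apply]
        by_cases hij : i = j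
        · subst hij
          simp [hxy i]
        · simp [hij, (h4 i j hij _ (hx i) _ (hy j)).2]
      rw [h5]
      exact isUnit_one
    omega
  · have := fam_adj_le G (by
      calc 2 = 2 ^ 1 := rfl
        _ ≤ 2 ^ w := Nat.pow_le_pow_right (by norm_num) hw) hm h
    omega

end Pool.Agent.V7H96.HG
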