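import Mathlib

set_option autoImplicit false

/-!
# Linear algebra for matrices of patterns
-/

namespace Pool.Agent.V7H96.HG

open Finset

/-- a family of vectors, restricted to a finite set of indices, is spanned by few of its members -/
theorem span_subset {E ι : Type*} [AddCommGroup E] [Module ℝ E] (v : ι → E) (D : Finset ι)
    (W : Submodule ℝ E) [FiniteDimensional ℝ W] (hW : ∀ i ∈ D, v i ∈ W) :
    ∃ T ⊆ D, T.card ≤ Module.finrank ℝ W ∧
      ∀ i ∈ D, v i ∈ Submodule.span ℝ (v '' (T : Set ι)) := by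
  classical
  obtain ⟨b, hb1, -, hb2, hb3⟩ := exists_linearIndepOn_extension (K := ℝ) (v := v)
    (linearIndepOn_empty ℝ v) (Set.empty_subset (D : Set ι))
  have hfin : b.Finite := D.finite_toSet.subset hb1
  refine ⟨hfin.toFinset, fun i hi => ?_, ?_, fun i hi => ?_⟩
  · exact_mod_cast hb1 (hfin.mem_toFinset.1 hi)
  · have hi : LinearIndependent ℝ (fun i : b => (⟨v i, hW i (by exact_mod_cast hb1 i.2)⟩ : W)) := by
      have h1 : LinearIndependent ℝ (fun i : b => v i) := hb3
      exact LinearIndependent.of_comp W.subtype h1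
    have : Fintype b := hfin.fintype
    have h2 := hi.fintype_card_le_finrank
    rw [Set.Finite.card_toFinset hfin]
    convert! h2
  · rw [Set.Finite.coe_toFinset]
    exact hb2 ⟨i, by exact_mod_cast hi, rfl⟩

/-- the row of a pattern -/
noncomputable def prow {X Y : Type*} (P : X → Y → Prop) (x : X) : Y → ℝ := by
  classical exact fun y => if P x y then 1 else 0

/-- the rank of a pattern -/
noncomputable def prk {X Y : Type*} (P : X → Y → Prop) : ℕ :=
  Module.finrank ℝ (Submodule.span ℝ (Set.range (prow P)))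

theorem prow_eq_zero {X Y : Type*} (P : X → Y → Prop) (x : X) (y : Y) :
    prow P x y = 0 ↔ ¬ P x y := by
  unfold prow
  by_cases h : P x y <;> simp [h]

theorem prow_eq_iff {X Y : Type*} (P : X → Y → Prop) (x x' : X) (y : Y) :
    prow P x y = prow P x' y ↔ (P x y ↔ P x' y) := by
  unfold prow
  by_cases h : P x y <;> by_cases h' : P x' y <;> simp [h, h']

instance {X Y : Type*} [Finite X] (P : X → Y → Prop) :
    FiniteDimensional ℝ (Submodule.span ℝ (Set.range (prow P))) :=
  FiniteDimensional.span_of_finite ℝ (Set.finite_range _)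

/-- If the rows of `A` meet `D` in few points each, then they all vanish on half of `D`. -/
theorem vanish_half {X Y : Type*} [Finite X] (P : X → Y → Prop) (ρ : ℕ) (hρ : 0 < ρ)
    (hP : prk P ≤ ρ) (A : Finset X) (D : Finset Y)
    (h : ∀ x ∈ A, (by classical exact (D.filter fun y => P x y).card) * (2 * ρ) ≤ D.card) :
    ∃ D' ⊆ D, D.card ≤ 2 * D'.card ∧ ∀ x ∈ A, ∀ y ∈ D', ¬ P x y := by
  classical
  obtain ⟨T, hT, hc, hs⟩ := span_subset (prow P) A (Submodule.span ℝ (Set.range (prow P)))
    (fun i _ => Submodule.subset_span ⟨i, rfl⟩)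
  set U : Finset Y := T.biUnion fun x => D.filter fun y => P x y with hU
  have hUc : 2 * U.card ≤ D.card := by
    have h1 : U.card ≤ ∑ x ∈ T, (D.filter fun y => P x y).card := card_biUnion_le
    have h2 : (∑ x ∈ T, (D.filter fun y => P x y).card) * (2 * ρ) ≤ T.card * D.card := by
      rw [Finset.sum_mul]
      calc ∑ x ∈ T, (D.filter fun y => P x y).card * (2 * ρ) ≤ ∑ x ∈ T, D.card :=
            Finset.sum_le_sum fun x hx => by convert! h x (hT hx)
        _ = T.card * D.card := by simp
    have h3 : U.card * 2 * ρ ≤ D.card * ρ := by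
      calc U.card * 2 * ρ = U.card * (2 * ρ) := by ring
        _ ≤ (∑ x ∈ T, (D.filter fun y => P x y).card) * (2 * ρ) := Nat.mul_le_mul_right _ h1
        _ ≤ T.card * D.card := h2
        _ ≤ ρ * D.card := Nat.mul_le_mul_right _ (hc.trans hP)
        _ = D.card * ρ := by ring
    have h4 := Nat.le_of_mul_le_mul_right h3 hρ
    omega
  refine ⟨D \ U, sdiff_subset, ?_, fun x hx y hy => ?_⟩
  · have : (D \ U).card = D.card - U.card := by
      apply card_sdiff_of_subset
      intro y hy
      obtain ⟨x, -, hx⟩ := mem_biUnion.1 hy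
      exact (mem_filter.1 hx).1
    omega
  · rw [← prow_eq_zero]
    have h1 := hs x hx
    obtain ⟨hyD, hyU⟩ := mem_sdiff.1 hy
    have h2 : Submodule.span ℝ (prow P '' (T : Set X)) ≤ LinearMap.ker (LinearMap.proj (R := ℝ) (φ := fun _ : Y => ℝ) y) := by
      rw [Submodule.span_le]
      rintro _ ⟨z, hz, rfl⟩
      show prow P z y = 0
      rw [prow_eq_zero]
      intro hzy
      exact hyU (mem_biUnion.2 ⟨z, by exact_mod_cast hz, mem_filter.2 ⟨hyD, hzy⟩⟩)
    exact h2 h1

/-- Rows which agree on few columns agree on all the columns of `D`. -/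
theorem determine {X Y : Type*} [Finite X] [Finite Y] (P : X → Y → Prop) (D : Finset Y) :
    ∃ T ⊆ D, T.card ≤ prk (fun y x => P x y) ∧
      ∀ x x', (∀ y ∈ T, (P x y ↔ P x' y)) → ∀ y ∈ D, (P x y ↔ P x' y) := by
  classical
  obtain ⟨T, hT, hc, hs⟩ := span_subset (prow fun y x => P x y) D
    (Submodule.span ℝ (Set.range (prow fun y x => P x y)))
    (fun i _ => Submodule.subset_span ⟨i, rfl⟩)
  refine ⟨T, hT, hc, fun x x' h y hy => ?_⟩
  have h1 := hs y hy
  have h2 : Submodule.span ℝ ((prow fun y x => P x y) '' (T : Set Y)) ≤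
      LinearMap.ker (LinearMap.proj (R := ℝ) (φ := fun _ : X => ℝ) x - LinearMap.proj x') := by
    rw [Submodule.span_le]
    rintro _ ⟨z, hz, rfl⟩
    show prow (fun y x => P x y) z x - prow (fun y x => P x y) z x' = 0
    have h3 := h z (by exact_mod_cast hz)
    unfold prow
    by_cases h4 : P x z
    · simp [h4, h3.1 h4]
    · simp [h4, mt h3.2 h4]
  have h3 := h2 h1
  have h4 : prow (fun y x => P x y) y x - prow (fun y x => P x y) y x' = 0 := h3
  unfold prow at h4
  by_cases h5 : P x y <;> by_cases h6 : P x' y <;> simp [h5, h6] at h4 ⊢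

/-- the matrix of a pattern -/
theorem prk_eq_rank {X Y : Type*} [Finite X] [Fintype Y] (P : X → Y → Prop) (M : Matrix X Y ℝ)
    (h : ∀ x y, M x y = prow P x y) : prk P = M.rank := by
  have : prow P = M.row := by
    funext x y
    exact (h x y).symm
  unfold prk
  rw [Matrix.rank_eq_finrank_span_row, this]

theorem prk_swap {X Y : Type*} [Fintype X] [Fintype Y] (P : X → Y → Prop) :
    prk (fun y x => P x y) = prk P := by
  have h1 := prk_eq_rank P (Matrix.of (prow P)) (fun _ _ => rfl)
  have h2 := prk_eq_rank (fun y x => P x y) (Matrix.of (prow P)).transpose (fun y x => rfl)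
  rw [h1, h2, Matrix.rank_transpose]

/-- a square submatrix with independent rows -/
theorem le_prk {X Y : Type*} [Fintype X] [Fintype Y] (P : X → Y → Prop) (N : ℕ) (x : Fin N → X)
    (y : Fin N → Y) (h : IsUnit (Matrix.of fun i j : Fin N => prow P (x i) (y j))) :
    N ≤ prk P := by
  have h1 := prk_eq_rank P (Matrix.of (prow P)) (fun _ _ => rfl)
  have h2 := Matrix.rank_submatrix_le (Matrix.of (prow P)) x y
  have h3 : (Matrix.of (prow P)).submatrix x y = Matrix.of fun i j : Fin N => prow P (x i) (y j) := rfl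
  rw [h3, Matrix.rank_of_isUnit _ h, Fintype.card_fin] at h2
  omega

theorem prk_not_le {X Y : Type*} [Finite X] (P : X → Y → Prop) :
    prk (fun x y => ¬ P x y) ≤ prk P + 1 := by
  unfold prk
  have h1 : Submodule.span ℝ (Set.range (prow fun x y => ¬ P x y)) ≤
      Submodule.span ℝ (Set.range (prow P)) ⊔ Submodule.span ℝ {(fun _ => 1 : Y → ℝ)} := by
    rw [Submodule.span_le]
    rintro _ ⟨x, rfl⟩
    have : prow (fun x y => ¬ P x y) x = - prow P x + (fun _ => 1 : Y → ℝ) := by
      funext y
      unfold prow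
      by_cases h : P x y <;> simp [h]
    rw [this]
    exact Submodule.add_mem_sup (Submodule.neg_mem _ (Submodule.subset_span ⟨x, rfl⟩))
      (Submodule.subset_span rfl)
  calc _ ≤ Module.finrank ℝ (Submodule.span ℝ (Set.range (prow P)) ⊔
        Submodule.span ℝ {(fun _ => 1 : Y → ℝ)} : Submodule ℝ (Y → ℝ)) := Submodule.finrank_mono h1
    _ ≤ _ := Submodule.finrank_add_le_finrank_add_finrank _ _
    _ ≤ _ := Nat.add_le_add_left (by
      have := finrank_span_le_card (R := ℝ) ({(fun _ => 1 : Y → ℝ)} : Set (Y → ℝ))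
      simpa using this) _

end Pool.Agent.V7H96.HG
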