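import Pool.Agent.V7H96.HG.Prot

set_option autoImplicit false

/-!
# The bounds
-/

namespace Pool.Agent.V7H96.HG

open Finset
open Pool.Agent.H630R2.LR (Proto)

/-- the number of colours -/
def qcol (k r : ℕ) : ℕ := K0 k (r + 1) ^ (2 * (Nat.log 2 r + 1)) * (r + 2)

theorem K0_pos (k r : ℕ) : 0 < K0 k (r + 1) := by
  unfold K0
  positivity

theorem qcol_pos (k r : ℕ) : 0 < qcol k r := by
  unfold qcol
  have := K0_pos k r
  positivity

theorem colouring {V : Type*} [Fintype V] [DecidableEq V] (G : SimpleGraph V) {k : ℕ}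
    (B : SimpleGraph (Fin k)) (hB : IsEmpty (B ↪g G)) : G.Colorable (qcol k (prk G.Adj)) := by
  set r := prk G.Adj with hr
  have hQ : 0 < K0 k (r + 1) ^ (2 * (Nat.log 2 r + 1)) := pow_pos (K0_pos k r) _
  obtain ⟨c, h1, h2⟩ := coloring G _ hQ (fun m hm U hU =>
    exists_indep G (r + 1) (Nat.log 2 r + 1) (by omega) (by omega) (prk_not_le G.Adj) B hB
      (by omega) (Nat.lt_pow_succ_log_self (by norm_num) r) m hm U hU)
  exact ⟨SimpleGraph.Coloring.mk (fun x => (⟨c x, h1 x⟩ : Fin (qcol k r)))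
    (fun {x y} hxy h => h2 x y hxy (Fin.mk.inj h))⟩

theorem logb_K0 (k r : ℕ) :
    Real.logb 2 (K0 k (r + 1)) ≤ 3 * (k + 1) * (1 + Real.logb 2 (r + 1)) := by
  have hL : 0 ≤ Real.logb 2 ((r : ℝ) + 1) := Real.logb_nonneg (by norm_num) (by
    have : (0 : ℝ) ≤ r := Nat.cast_nonneg r
    linarith)
  have hk : Real.logb 2 ((k : ℝ) + 1) ≤ k := by
    rw [Real.logb_le_iff_le_rpow (by norm_num) (by positivity), Real.rpow_natCast]
    exact_mod_cast Nat.lt_two_pow_self (n := k)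
  have h2 : Real.logb 2 (2 : ℝ) = 1 := Real.logb_self_eq_one (by norm_num)
  have e : ((K0 k (r + 1) : ℕ) : ℝ) = ((k : ℝ) + 1) * (2 * ((k : ℝ) + 1) * (2 * ((r : ℝ) + 1)) ^ k) := by
    unfold K0
    push_cast
    ring
  rw [e, Real.logb_mul (by positivity) (by positivity), Real.logb_mul (by positivity) (by positivity),
    Real.logb_mul (by positivity) (by positivity), Real.logb_pow,
    Real.logb_mul (by positivity) (by positivity), h2]
  have hk0 : (0 : ℝ) ≤ k := Nat.cast_nonneg k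
  nlinarith [mul_nonneg hk0 hL]

theorem logb_qcol (k r : ℕ) :
    Real.logb 2 (qcol k r) ≤ 7 * (k + 1) * (1 + Real.logb 2 (r + 1)) ^ 2 := by
  have hL : 0 ≤ Real.logb 2 ((r : ℝ) + 1) := Real.logb_nonneg (by norm_num) (by
    have : (0 : ℝ) ≤ r := Nat.cast_nonneg r
    linarith)
  have hk0 : (0 : ℝ) ≤ k := Nat.cast_nonneg k
  have hw : ((Nat.log 2 r : ℕ) : ℝ) ≤ Real.logb 2 (r + 1) := by
    rcases Nat.eq_zero_or_pos r with h | h
    · subst h
      simp
    · refine (Real.natLog_le_logb r 2).trans ?_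
      exact Real.logb_le_logb_of_le (by norm_num) (by exact_mod_cast h) (by linarith)
  have hr2 : Real.logb 2 ((r : ℝ) + 2) ≤ 1 + Real.logb 2 (r + 1) := by
    have h2 : Real.logb 2 (2 : ℝ) = 1 := Real.logb_self_eq_one (by norm_num)
    calc Real.logb 2 ((r : ℝ) + 2) ≤ Real.logb 2 (2 * ((r : ℝ) + 1)) :=
          Real.logb_le_logb_of_le (by norm_num) (by positivity) (by
            have : (0 : ℝ) ≤ r := Nat.cast_nonneg r
            linarith)
      _ = _ := by rw [Real.logb_mul (by norm_num) (by positivity), h2]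
  have hK := logb_K0 k r
  have hK1 : 0 ≤ Real.logb 2 (K0 k (r + 1)) := Real.logb_nonneg (by norm_num) (by
    exact_mod_cast K0_pos k r)
  have e : ((qcol k r : ℕ) : ℝ) = (K0 k (r + 1) : ℝ) ^ (2 * (Nat.log 2 r + 1)) * ((r : ℝ) + 2) := by
    unfold qcol
    push_cast
    ring
  have hKp : (0 : ℝ) < K0 k (r + 1) := by exact_mod_cast K0_pos k r
  rw [e, Real.logb_mul (by positivity) (by positivity), Real.logb_pow]
  push_cast
  set L := Real.logb 2 ((r : ℝ) + 1) with hLdef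
  have h3 : 2 * ((Nat.log 2 r : ℝ) + 1) * Real.logb 2 (K0 k (r + 1)) ≤
      2 * (L + 1) * (3 * (k + 1) * (1 + L)) := by
    have : (0 : ℝ) ≤ Nat.log 2 r := Nat.cast_nonneg _
    apply mul_le_mul _ hK hK1 (by positivity)
    linarith
  have h4 : (1 : ℝ) + L ≤ (k + 1) * (1 + L) ^ 2 := by
    nlinarith [mul_nonneg hk0 (sq_nonneg (1 + L))]
  nlinarith [h3, h4]

theorem clog_le' (n : ℕ) (hn : 0 < n) : (Nat.clog 2 n : ℝ) ≤ Real.logb 2 n + 1 := by
  rcases Nat.lt_or_ge 1 n with h | h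
  · have h3 := Nat.pow_pred_clog_lt_self (b := 2) (by norm_num) h
    have h4 : (((Nat.clog 2 n).pred : ℕ) : ℝ) ≤ Real.logb 2 (n : ℝ) := by
      rw [Real.le_logb_iff_rpow_le (by norm_num) (by exact_mod_cast hn), Real.rpow_natCast]
      exact_mod_cast h3.le
    have h5 : (Nat.clog 2 n : ℝ) ≤ (((Nat.clog 2 n).pred : ℕ) : ℝ) + 1 := by
      exact_mod_cast (by
        rw [Nat.pred_eq_sub_one]
        omega : Nat.clog 2 n ≤ (Nat.clog 2 n).pred + 1)
    linarith
  · rw [Nat.clog_of_right_le_one h]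
    have : (1 : ℝ) ≤ n := by exact_mod_cast hn
    have := Real.logb_nonneg (b := 2) (by norm_num) this
    push_cast
    linarith

/-- The communication complexity is determined, up to a constant factor, by the chromatic number
and the rank. -/
theorem proto_colorable {V : Type*} [Fintype V] (G : SimpleGraph V) {k : ℕ}
    (B : SimpleGraph (Fin k)) (hB2 : B.Colorable 2) (hB : IsEmpty (B ↪g G)) (q : ℕ) (hq : 0 < q)
    (hc : G.Colorable q) : ∃ c : ℕ, Proto (adj G) c ∧
      (c : ℝ) ≤ 2 * Real.logb 2 q + k * Real.logb 2 (prk G.Adj + 1) + 5 := by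
  classical
  obtain ⟨f⟩ := hc
  obtain ⟨b⟩ := hB2
  set r := prk G.Adj with hr
  have h := proto_of_coloring G B (fun i => decide (b i = 0)) (fun i j hij h => by
    have h1 := b.valid hij
    have h2 : ∀ x : Fin 2, x = 0 ∨ x = 1 := by decide
    simp only [decide_eq_decide] at h
    rcases h2 (b i) with h3 | h3 <;> rcases h2 (b j) with h4 | h4
    · exact h1 (h3.trans h4.symm)
    · exact absurd (h.1 h3) (by rw [h4]; decide)
    · exact absurd (h.2 h4) (by rw [h3]; decide)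
    · exact h1 (h3.trans h4.symm)) hB q (Nat.clog 2 q) (Nat.clog 2 ((r + 1) ^ k + 1)) f
    (fun x y hxy => f.valid hxy) (Nat.le_pow_clog (by norm_num) q)
    (Nat.le_pow_clog (by norm_num) _)
  refine ⟨_, h, ?_⟩
  have h1 := clog_le' q hq
  have h2 := clog_le' ((r + 1) ^ k + 1) (by positivity)
  have hL : 0 ≤ Real.logb 2 ((r : ℝ) + 1) := Real.logb_nonneg (by norm_num) (by
    have : (0 : ℝ) ≤ r := Nat.cast_nonneg r
    linarith)
  have h3 : Real.logb 2 (((r + 1) ^ k + 1 : ℕ) : ℝ) ≤ 1 + k * Real.logb 2 ((r : ℝ) + 1) := by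
    have h4 : Real.logb 2 (2 : ℝ) = 1 := Real.logb_self_eq_one (by norm_num)
    have h5 : (1 : ℝ) ≤ ((r : ℝ) + 1) ^ k := one_le_pow₀ (by
      have : (0 : ℝ) ≤ r := Nat.cast_nonneg r
      linarith)
    push_cast
    calc Real.logb 2 (((r : ℝ) + 1) ^ k + 1) ≤ Real.logb 2 (2 * ((r : ℝ) + 1) ^ k) :=
          Real.logb_le_logb_of_le (by norm_num) (by positivity) (by linarith)
      _ = _ := by rw [Real.logb_mul (by norm_num) (by positivity), h4, Real.logb_pow]
  push_cast at h2 h3 ⊢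
  linarith

theorem main_proto {V : Type*} [Fintype V] (G : SimpleGraph V) {k : ℕ}
    (B : SimpleGraph (Fin k)) (hB2 : B.Colorable 2) (hB : IsEmpty (B ↪g G)) :
    ∃ c : ℕ, Proto (adj G) c ∧
      (c : ℝ) ≤ 20 * (k + 1) * (1 + Real.logb 2 (prk G.Adj + 1)) ^ 2 := by
  classical
  obtain ⟨c, h1, h2⟩ := proto_colorable G B hB2 hB _ (qcol_pos k (prk G.Adj)) (colouring G B hB)
  refine ⟨c, h1, h2.trans ?_⟩
  have h3 := logb_qcol k (prk G.Adj)
  have hL : 0 ≤ Real.logb 2 ((prk G.Adj : ℝ) + 1) := Real.logb_nonneg (by norm_num) (by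
    have : (0 : ℝ) ≤ (prk G.Adj : ℝ) := Nat.cast_nonneg _
    linarith)
  have hk0 : (0 : ℝ) ≤ k := Nat.cast_nonneg k
  set L := Real.logb 2 ((prk G.Adj : ℝ) + 1) with hLdef
  nlinarith [mul_nonneg hk0 hL, mul_nonneg hk0 (mul_nonneg hL hL), mul_nonneg hL hL]

end Pool.Agent.V7H96.HG
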