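import Pool.Agent.V7H96.HG.Lin

set_option autoImplicit false

/-!
# Large homogeneous pairs in graphs of low rank without a given induced subgraph
-/

namespace Pool.Agent.V7H96.HG

open Finset

variable {V : Type*} [Finite V] [DecidableEq V]

/-- all edges, or no edges, between `A` and `A'` -/
def Hom (G : SimpleGraph V) (A A' : Finset V) : Prop :=
  (∀ x ∈ A, ∀ y ∈ A', G.Adj x y) ∨ ∀ x ∈ A, ∀ y ∈ A', ¬ G.Adj x y

/-- Greedy embedding: either there are vertices in the classes `C j` which induce the graph `B`, or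
two of the classes have large parts with all edges or no edges between them. -/
theorem embed (G : SimpleGraph V) (ρ : ℕ) (hρ : 0 < ρ) (h1 : prk G.Adj ≤ ρ)
    (h2 : prk (fun x y => ¬ G.Adj x y) ≤ ρ) (K m : ℕ) (hm : 0 < m) (k : ℕ) :
    ∀ (_ : k ≤ K) (B : SimpleGraph (Fin k)) (C : Fin k → Finset V),
    (∀ j, 2 * K * (2 * ρ) ^ k * m ≤ (C j).card) →
    (∃ f : Fin k → V, (∀ j, f j ∈ C j) ∧ ∀ i j, i ≠ j → (G.Adj (f i) (f j) ↔ B.Adj i j)) ∨
    (∃ i j, i ≠ j ∧ ∃ A ⊆ C i, ∃ A' ⊆ C j, m ≤ A.card ∧ m ≤ A'.card ∧ Hom G A A') := by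
  classical
  induction k with
  | zero =>
    intro _ B C _
    exact Or.inl ⟨fun j => j.elim0, fun j => j.elim0, fun i => i.elim0⟩
  | succ k ih =>
    intro hk B C hC
    have hpow : 1 ≤ (2 * ρ) ^ (k + 1) := Nat.one_le_pow _ _ (by omega)
    by_cases hg : ∃ v ∈ C 0, ∀ j : Fin k, (C j.succ).card ≤
        ((C j.succ).filter fun u => (G.Adj v u ↔ B.Adj 0 j.succ)).card * (2 * ρ)
    · obtain ⟨v, hv, hg⟩ := hg
      rcases ih (by omega) (B.comap Fin.succ)
        (fun j => (C j.succ).filter fun u => (G.Adj v u ↔ B.Adj 0 j.succ)) (fun j => by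
          have h3 := (hC j.succ).trans (hg j)
          have h4 : 2 * K * (2 * ρ) ^ (k + 1) * m = 2 * K * (2 * ρ) ^ k * m * (2 * ρ) := by ring
          rw [h4] at h3
          exact Nat.le_of_mul_le_mul_right h3 (by omega)) with h | h
      · left
        obtain ⟨f, hf, hadj⟩ := h
        refine ⟨Fin.cons v f, fun j => ?_, fun i j hij => ?_⟩
        · refine Fin.cases ?_ (fun j => ?_) j
          · exact hv
          · exact (mem_filter.1 (hf j)).1
        · revert hij
          refine Fin.cases ?_ (fun i => ?_) i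
          · refine Fin.cases ?_ (fun j => ?_) j
            · intro h
              exact absurd rfl h
            · intro _
              simp only [Fin.cons_zero, Fin.cons_succ]
              exact (mem_filter.1 (hf j)).2
          · refine Fin.cases ?_ (fun j => ?_) j
            · intro _
              simp only [Fin.cons_zero, Fin.cons_succ]
              rw [G.adj_comm, B.adj_comm]
              exact (mem_filter.1 (hf i)).2
            · intro hij
              simp only [Fin.cons_succ]
              exact hadj i j fun h => hij (by rw [h])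
      · right
        obtain ⟨i, j, hij, A, hA, A', hA', h3, h4, h5⟩ := h
        exact ⟨i.succ, j.succ, fun h => hij (Fin.succ_injective _ h), A,
          hA.trans (filter_subset _ _), A', hA'.trans (filter_subset _ _), h3, h4, h5⟩
    · right
      push Not at hg
      have hch : ∀ v : V, ∃ j : Fin (k + 1), v ∈ C 0 → ∃ i : Fin k, j = i.succ ∧
          ((C i.succ).filter fun u => (G.Adj v u ↔ B.Adj 0 i.succ)).card * (2 * ρ) <
            (C i.succ).card := by
        intro v
        by_cases hv : v ∈ C 0
        · obtain ⟨j, hj⟩ := hg v hv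
          exact ⟨j.succ, fun _ => ⟨j, rfl, hj⟩⟩
        · exact ⟨0, fun h => absurd h hv⟩
      choose g hg' using hch
      have hC0 := hC 0
      have hne : (C 0).Nonempty := by
        rw [← Finset.card_pos]
        have hK : 0 < K := by omega
        have : 0 < 2 * K * (2 * ρ) ^ (k + 1) * m := by positivity
        omega
      have hmaps : ∀ v ∈ C 0, g v ∈ (univ.image (Fin.succ : Fin k → Fin (k + 1))) := by
        intro v hv
        obtain ⟨i, hi, -⟩ := hg' v hv
        exact mem_image.2 ⟨i, mem_univ _, hi.symm⟩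
      obtain ⟨v₀, hv₀⟩ := hne
      obtain ⟨j, hj, hfib⟩ := Finset.exists_le_card_fiber_of_mul_le_card_of_maps_to
        (n := 2 * (2 * ρ) ^ (k + 1) * m) hmaps ⟨_, hmaps v₀ hv₀⟩ (by
          have : (univ.image (Fin.succ : Fin k → Fin (k + 1))).card ≤ k :=
            card_image_le.trans (by simp)
          calc _ ≤ k * (2 * (2 * ρ) ^ (k + 1) * m) := Nat.mul_le_mul_right _ this
            _ ≤ K * (2 * (2 * ρ) ^ (k + 1) * m) := Nat.mul_le_mul_right _ (by omega)
            _ = 2 * K * (2 * ρ) ^ (k + 1) * m := by ring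
            _ ≤ _ := hC0)
      obtain ⟨i, -, rfl⟩ := mem_image.1 hj
      set A := (C 0).filter fun v => g v = i.succ with hA
      have hAm : m ≤ A.card := by
        refine le_trans ?_ hfib
        calc m = 1 * 1 * m := by ring
          _ ≤ 2 * (2 * ρ) ^ (k + 1) * m := by gcongr; norm_num
      have hAx : ∀ x ∈ A, ((C i.succ).filter fun u => (G.Adj x u ↔ B.Adj 0 i.succ)).card * (2 * ρ) ≤
            (C i.succ).card := by
        intro x hx
        obtain ⟨hx0, hx1⟩ := mem_filter.1 hx
        obtain ⟨i', hi', hlt⟩ := hg' x hx0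
        rw [hx1] at hi'
        have := Fin.succ_injective _ hi'
        subst this
        exact hlt.le
      have hDm : ∀ D' : Finset V, (C i.succ).card ≤ 2 * D'.card → m ≤ D'.card := by
        intro D' hD'
        have h3 := (hC i.succ).trans hD'
        have h4 : 2 * (1 * 1 * m) ≤ 2 * K * (2 * ρ) ^ (k + 1) * m := by
          calc 2 * (1 * 1 * m) ≤ 2 * (K * (2 * ρ) ^ (k + 1) * m) := by gcongr; omega
            _ = _ := by ring
        omega
      refine ⟨0, i.succ, (Fin.succ_ne_zero i).symm, A, filter_subset _ _, ?_⟩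
      by_cases hadj : B.Adj 0 i.succ
      · obtain ⟨D', hD', hc, hv⟩ := vanish_half G.Adj ρ hρ h1 A (C i.succ) (fun x hx => by
          have := hAx x hx
          simp only [hadj, iff_true] at this
          convert! this)
        exact ⟨D', hD', hAm, hDm D' hc, Or.inr hv⟩
      · obtain ⟨D', hD', hc, hv⟩ := vanish_half (fun x y => ¬ G.Adj x y) ρ hρ h2 A (C i.succ)
          (fun x hx => by
            have := hAx x hx
            simp only [hadj, iff_false] at this
            convert! this)
        exact ⟨D', hD', hAm, hDm D' hc, Or.inl fun x hx y hy => not_not.1 (hv x hx y hy)⟩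

/-- the constant of the next theorem -/
def K0 (k ρ : ℕ) : ℕ := (k + 1) * (2 * (k + 1) * (2 * ρ) ^ k)

/-- In a graph of low rank without the induced subgraph `B` every set of vertices contains a large
homogeneous pair. -/
theorem pair (G : SimpleGraph V) (ρ : ℕ) (hρ : 0 < ρ) (h1 : prk G.Adj ≤ ρ)
    (h2 : prk (fun x y => ¬ G.Adj x y) ≤ ρ) {k : ℕ} (B : SimpleGraph (Fin k))
    (hB : IsEmpty (B ↪g G)) (m : ℕ) (hm : 0 < m) (U : Finset V) (hU : K0 k ρ * m ≤ U.card) :
    ∃ A ⊆ U, ∃ A' ⊆ U, Disjoint A A' ∧ m ≤ A.card ∧ m ≤ A'.card ∧ Hom G A A' := by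
  classical
  set N := 2 * (k + 1) * (2 * ρ) ^ k * m with hN
  have hcard : Fintype.card (Fin k × Fin N) ≤ Fintype.card U := by
    rw [Fintype.card_prod, Fintype.card_fin, Fintype.card_fin, Fintype.card_coe]
    calc k * N ≤ (k + 1) * N := Nat.mul_le_mul_right _ (by omega)
      _ = K0 k ρ * m := by rw [hN, K0]; ring
      _ ≤ _ := hU
  obtain ⟨ι⟩ := Function.Embedding.nonempty_of_card_le hcard
  set C : Fin k → Finset V := fun j => univ.image fun t : Fin N => (ι (j, t) : V) with hCdef
  have hCc : ∀ j, (C j).card = N := by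
    intro j
    rw [hCdef, card_image_of_injective _ (fun a b h => by
      have := ι.injective (Subtype.ext h)
      exact (Prod.mk.inj this).2)]
    simp
  have hCU : ∀ j, C j ⊆ U := by
    intro j x hx
    obtain ⟨t, -, rfl⟩ := mem_image.1 hx
    exact (ι (j, t)).2
  have hCd : ∀ i j, i ≠ j → Disjoint (C i) (C j) := by
    intro i j hij
    rw [Finset.disjoint_left]
    intro x hx hy
    obtain ⟨t, -, rfl⟩ := mem_image.1 hx
    obtain ⟨s, -, hs⟩ := mem_image.1 hy
    have := ι.injective (Subtype.ext hs)
    exact hij (Prod.mk.inj this).1.symm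
  rcases embed G ρ hρ h1 h2 (k + 1) m hm k (by omega) B C (fun j => (hCc j).ge) with h | h
  · exfalso
    obtain ⟨f, hf, hadj⟩ := h
    have hinj : Function.Injective f := by
      intro i j hij
      by_contra hne
      exact Finset.disjoint_left.1 (hCd i j hne) (hf i) (hij ▸ hf j)
    refine hB.false ⟨⟨f, hinj⟩, fun {i j} => ?_⟩
    by_cases hij : i = j
    · subst hij
      simp
    · exact hadj i j hij
  · obtain ⟨i, j, hij, A, hA, A', hA', h3, h4, h5⟩ := h
    exact ⟨A, hA.trans (hCU i), A', hA'.trans (hCU j),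
      Finset.disjoint_of_subset_left hA (Finset.disjoint_of_subset_right hA' (hCd i j hij)),
      h3, h4, h5⟩

end Pool.Agent.V7H96.HG
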