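import Pool.Agent.V7H96.HG.VC
import Pool.Agent.H630R2.LR.M1

set_option autoImplicit false

/-!
# Protocols for adjacency matrices
-/

namespace Pool.Agent.V7H96.HG

open Finset
open Pool.Agent.H630R2.LR (Proto)

/-- the adjacency function of a graph -/
noncomputable def adj {V : Type*} (G : SimpleGraph V) : V → V → Bool := by
  classical exact fun x y => decide (G.Adj x y)

theorem adj_eq_true {V : Type*} (G : SimpleGraph V) (x y : V) : adj G x y = true ↔ G.Adj x y := by
  unfold adj
  simp

theorem proto_bob {X Y : Type*} (h : Y → Bool) : Proto (fun (_ : X) (y : Y) => h y) 1 :=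
  Proto.bob _ h (fun v _ _ => v) 0 (fun v => Proto.const _ v fun _ _ => rfl) fun _ _ => rfl

/-- few different rows -/
theorem few_rows {X Y : Type*} (F : X → Y → Bool) (R : Finset (Y → Bool)) (w : ℕ)
    (hR : ∀ x, F x ∈ R) (hw : R.card ≤ 2 ^ w) : Proto F (1 + w) :=
  Proto.sendX F (fun x => (⟨F x, hR x⟩ : R)) w (by rwa [Fintype.card_coe])
    (fun q _ y => q.1 y) 1 (fun q => proto_bob q.1) fun _ _ => rfl

/-- The protocol: first the colours are exchanged, then Alice sends her row. -/
theorem proto_of_coloring {V : Type*} [Fintype V] [DecidableEq V] (G : SimpleGraph V) {k : ℕ}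
    (B : SimpleGraph (Fin k)) (s : Fin k → Bool) (hs : ∀ i j, B.Adj i j → s i ≠ s j)
    (hB : IsEmpty (B ↪g G)) (q w₁ w₂ : ℕ) (c : V → Fin q) (hc : ∀ x y, G.Adj x y → c x ≠ c y)
    (h1 : q ≤ 2 ^ w₁) (h2 : (prk G.Adj + 1) ^ k + 1 ≤ 2 ^ w₂) :
    Proto (adj G) (1 + w₂ + w₁ + w₁) := by
  classical
  refine Proto.sendX (adj G) c w₁ (by rwa [Fintype.card_fin])
    (fun i x y => adj G x y && decide (c x = i)) _ (fun i => ?_) (fun x y => by simp)
  refine Proto.sendY _ c w₁ (by rwa [Fintype.card_fin])
    (fun j x y => adj G x y && decide (c x = i) && decide (c y = j)) _ (fun j => ?_)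
    (fun x y => by simp)
  by_cases hij : i = j
  · subst hij
    refine few_rows _ {fun _ => false} w₂ (fun x => ?_) ?_
    · rw [mem_singleton]
      funext y
      rw [Bool.eq_false_iff]
      intro h
      simp only [Bool.and_eq_true, decide_eq_true_eq, adj_eq_true] at h
      exact hc x y h.1.1 (h.1.2.trans h.2.symm)
    · rw [card_singleton]
      exact Nat.one_le_two_pow
  · set C := univ.filter fun x => c x = i with hC
    set C' := univ.filter fun x => c x = j with hC'
    refine few_rows _ (insert (fun _ => false)
      ((C.image fun x => C'.filter fun y => G.Adj x y).image fun S y => decide (y ∈ S))) w₂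
      (fun x => ?_) ?_
    · by_cases hx : c x = i
      · refine mem_insert_of_mem (mem_image.2 ⟨_, mem_image_of_mem _
          (mem_filter.2 ⟨mem_univ x, hx⟩), ?_⟩)
        funext y
        rw [Bool.eq_iff_iff]
        simp only [decide_eq_true_eq, mem_filter, mem_univ, true_and, Bool.and_eq_true,
          adj_eq_true, hC', hx]
        tauto
      · refine mem_insert.2 (Or.inl ?_)
        funext y
        simp [hx]
    · have h3 := rows_le G B s hs hB C C' (by
          rw [Finset.disjoint_left]
          intro x hx hx'
          exact hij ((mem_filter.1 hx).2.symm.trans (mem_filter.1 hx').2))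
        (fun x hx y hy h => hc x y h ((mem_filter.1 hx).2.trans (mem_filter.1 hy).2.symm))
        (fun x hx y hy h => hc x y h ((mem_filter.1 hx).2.trans (mem_filter.1 hy).2.symm))
      calc _ ≤ ((C.image fun x => C'.filter fun y => G.Adj x y).image
            fun S y => decide (y ∈ S)).card + 1 := card_insert_le _ _
        _ ≤ (C.image fun x => C'.filter fun y => G.Adj x y).card + 1 :=
            Nat.add_le_add_right card_image_le _
        _ ≤ (prk G.Adj + 1) ^ k + 1 := Nat.add_le_add_right (by convert! h3) _
        _ ≤ _ := h2

/-- A protocol gives a colouring. -/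
theorem colorable_of_proto {V : Type*} (G : SimpleGraph V) (c : ℕ) (h : Proto (adj G) c) :
    G.Colorable (2 ^ c) := by
  obtain ⟨owner, a, b, out, hout⟩ := h
  set T : V → V → ℕ → List Bool := fun x y n => Nat.iterate
    (fun t : List Bool => t ++ [if owner t then a t x else b t y]) n [] with hT
  have hs : ∀ x y n, T x y (n + 1) =
      T x y n ++ [if owner (T x y n) then a (T x y n) x else b (T x y n) y] := by
    intro x y n
    simp only [hT]
    rw [Function.iterate_succ_apply']
  have hlen : ∀ x y n, (T x y n).length = n := by
    intro x y n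
    induction n with
    | zero => rfl
    | succ n ih => rw [hs, List.length_append, ih]; rfl
  have key : ∀ x y n, T x x n = T y y n → T x y n = T x x n := by
    intro x y n
    induction n with
    | zero => intro _; rfl
    | succ n ih =>
      intro h
      rw [hs, hs] at h
      obtain ⟨h1, h2⟩ := List.append_inj' h rfl
      have h3 := ih h1
      rw [hs, hs, h3]
      congr 1
      rw [← h1] at h2
      by_cases ho : owner (T x x n) = true
      · simp [ho]
      · simp only [ho] at h2 ⊢
        exact h2.symm
  have hcol : G.Coloring (List.Vector Bool c) := SimpleGraph.Coloring.mk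
    (fun x => ⟨T x x c, hlen x x c⟩) (by
      intro x y hxy h
      have h1 : T x x c = T y y c := congrArg Subtype.val h
      have h2 := key x y c h1
      have h3 : out (T x y c) = adj G x y := hout x y
      have h4 : out (T x x c) = adj G x x := hout x x
      rw [h2, h4] at h3
      have h5 : adj G x y = true := (adj_eq_true G x y).2 hxy
      rw [h5, adj_eq_true] at h3
      exact G.loopless.irrefl x h3)
  have := hcol.colorable
  rwa [card_vector, Fintype.card_bool] at this

end Pool.Agent.V7H96.HG
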