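import Pool.Agent.V7H96.HG.Main

set_option autoImplicit false

/-!
# Reductions between matrices and graphs
-/

namespace Pool.Agent.V7H96.HG

open Finset
open Pool.Agent.H630R2.LR (Proto)

/-- the bipartite graph of a Boolean matrix -/
def bipG {X Y : Type*} (F : X → Y → Bool) : SimpleGraph (X ⊕ Y) where
  Adj u v := (∃ x y, u = Sum.inl x ∧ v = Sum.inr y ∧ F x y = true) ∨
    ∃ x y, v = Sum.inl x ∧ u = Sum.inr y ∧ F x y = true
  symm := ⟨fun _ _ h => h.symm⟩
  loopless := ⟨by
    rintro u (⟨x, y, h1, h2, -⟩ | ⟨x, y, h1, h2, -⟩) <;> · rw [h1] at h2; simp at h2⟩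

theorem bipG_adj {X Y : Type*} (F : X → Y → Bool) (x : X) (y : Y) :
    (bipG F).Adj (Sum.inl x) (Sum.inr y) ↔ F x y = true := by
  simp [bipG]

theorem bipG_adj' {X Y : Type*} (F : X → Y → Bool) (x : X) (y : Y) :
    (bipG F).Adj (Sum.inr y) (Sum.inl x) ↔ F x y = true := by
  simp [bipG]

theorem bipG_ll {X Y : Type*} (F : X → Y → Bool) (x x' : X) :
    ¬ (bipG F).Adj (Sum.inl x) (Sum.inl x') := by
  simp [bipG]

theorem bipG_rr {X Y : Type*} (F : X → Y → Bool) (y y' : Y) :
    ¬ (bipG F).Adj (Sum.inr y) (Sum.inr y') := by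
  simp [bipG]

theorem prk_bipG {X Y : Type*} [Fintype X] [Fintype Y] (F : X → Y → Bool) :
    prk (bipG F).Adj ≤ 2 * prk (fun x y => F x y = true) := by
  classical
  set P : X → Y → Prop := fun x y => F x y = true with hP
  let i₁ : (X → ℝ) →ₗ[ℝ] (X ⊕ Y → ℝ) := LinearMap.pi (Sum.elim (fun x => LinearMap.proj x) fun _ => 0)
  let i₂ : (Y → ℝ) →ₗ[ℝ] (X ⊕ Y → ℝ) := LinearMap.pi (Sum.elim (fun _ => 0) fun y => LinearMap.proj y)
  have h1 : Submodule.span ℝ (Set.range (prow (bipG F).Adj)) ≤
      (Submodule.span ℝ (Set.range (prow P))).map i₂ ⊔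
      (Submodule.span ℝ (Set.range (prow fun y x => P x y))).map i₁ := by
    rw [Submodule.span_le]
    rintro _ ⟨u | u, rfl⟩
    · refine Submodule.mem_sup_left (Submodule.mem_map.2 ⟨prow P u, Submodule.subset_span ⟨u, rfl⟩, ?_⟩)
      funext v
      rcases v with v | v
      · show (0 : ℝ) = _
        rw [eq_comm, prow_eq_zero]
        exact bipG_ll F u v
      · show prow P u v = _
        unfold prow
        simp only [bipG_adj, hP]
    · refine Submodule.mem_sup_right (Submodule.mem_map.2
        ⟨prow (fun y x => P x y) u, Submodule.subset_span ⟨u, rfl⟩, ?_⟩)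
      funext v
      rcases v with v | v
      · show prow (fun y x => P x y) u v = _
        unfold prow
        simp only [bipG_adj', hP]
      · show (0 : ℝ) = _
        rw [eq_comm, prow_eq_zero]
        exact bipG_rr F u v
  calc prk (bipG F).Adj ≤ Module.finrank ℝ ((Submodule.span ℝ (Set.range (prow P))).map i₂ ⊔
      (Submodule.span ℝ (Set.range (prow fun y x => P x y))).map i₁ : Submodule ℝ (X ⊕ Y → ℝ)) :=
        Submodule.finrank_mono h1
    _ ≤ _ := Submodule.finrank_add_le_finrank_add_finrank _ _
    _ ≤ prk P + prk (fun y x => P x y) :=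
        Nat.add_le_add (Submodule.finrank_map_le _ _) (Submodule.finrank_map_le _ _)
    _ = 2 * prk P := by rw [prk_swap]; ring

theorem prk_comp_le {X Y X' Y' : Type*} [Fintype X] [Fintype Y] [Fintype X'] [Fintype Y']
    (P : X → Y → Prop) (f : X' → X) (g : Y' → Y) :
    prk (fun x y => P (f x) (g y)) ≤ prk P := by
  have h1 := prk_eq_rank P (Matrix.of (prow P)) (fun _ _ => rfl)
  have h2 := prk_eq_rank (fun x y => P (f x) (g y)) ((Matrix.of (prow P)).submatrix f g)
    (fun x y => rfl)
  rw [h1, h2]
  exact Matrix.rank_submatrix_le _ _ _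

/-- Every Boolean matrix is a part of the adjacency matrix of a bipartite graph. -/
theorem bip_reduction {X Y : Type*} [Fintype X] [Fintype Y] (F : X → Y → Bool) :
    ∃ (N : ℕ) (G : SimpleGraph (Fin N)), G.Colorable 2 ∧
      prk G.Adj ≤ 2 * prk (fun x y => F x y = true) ∧ ∀ c, Proto (adj G) c → Proto F c := by
  classical
  have e := Fintype.equivFin (X ⊕ Y)
  refine ⟨Fintype.card (X ⊕ Y), (bipG F).comap e.symm, ?_, ?_, fun c hc => ?_⟩
  · refine ⟨SimpleGraph.Coloring.mk
      (fun u => if (e.symm u).isLeft then (0 : Fin 2) else 1) ?_⟩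
    intro u v huv
    rw [SimpleGraph.comap_adj] at huv
    rcases hu : e.symm u with a | a <;> rcases hv : e.symm v with b | b <;> rw [hu, hv] at huv
    · exact absurd huv (bipG_ll F a b)
    · simp
    · simp
    · exact absurd huv (bipG_rr F a b)
  · exact (prk_comp_le (bipG F).Adj e.symm e.symm).trans (prk_bipG F)
  · have h := hc.comap (fun x : X => e (Sum.inl x)) (fun y : Y => e (Sum.inr y))
    have : (fun (x : X) (y : Y) => adj ((bipG F).comap e.symm) (e (Sum.inl x)) (e (Sum.inr y))) = F := by
      funext x y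
      rw [Bool.eq_iff_iff, adj_eq_true, SimpleGraph.comap_adj, e.symm_apply_apply,
        e.symm_apply_apply, bipG_adj]
    rwa [this] at h

/-- Every adjacency matrix is a matrix on the cube, with repeated rows and columns. -/
theorem cube_reduction (n : ℕ) (G : SimpleGraph (Fin n)) :
    ∃ F : (Fin n → ZMod 2) → (Fin n → ZMod 2) → Bool,
      prk (fun x y => F x y = true) ≤ prk G.Adj ∧ ∀ c, Proto F c → Proto (adj G) c := by
  classical
  rcases Nat.eq_zero_or_pos n with h | h
  · subst h
    refine ⟨fun _ _ => false, ?_, fun c _ => ?_⟩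
    · unfold prk
      have : Submodule.span ℝ (Set.range (prow fun (_ _ : Fin 0 → ZMod 2) => false = true)) = ⊥ := by
        rw [Submodule.span_eq_bot]
        rintro _ ⟨x, rfl⟩
        funext y
        simp [prow]
      rw [this]
      simp
    · exact (Proto.const _ true fun x => x.elim0).mono (Nat.zero_le _)
  · have : Nonempty (Fin n) := ⟨⟨0, h⟩⟩
    set ι : Fin n → (Fin n → ZMod 2) := fun i => Pi.single i 1 with hι
    have hinj : Function.Injective ι := by
      intro i j hij
      by_contra hne
      have h1 := congrFun hij i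
      simp only [hι, Pi.single_eq_same, Pi.single_eq_of_ne hne] at h1
      exact one_ne_zero h1
    refine ⟨fun x y => adj G (Function.invFun ι x) (Function.invFun ι y), ?_, fun c hc => ?_⟩
    · have : (fun x y => adj G (Function.invFun ι x) (Function.invFun ι y) = true) =
          fun x y => G.Adj (Function.invFun ι x) (Function.invFun ι y) := by
        funext x y
        exact propext (adj_eq_true _ _ _)
      rw [this]
      exact prk_comp_le G.Adj _ _
    · have h1 := hc.comap ι ι
      have h2 : (fun i j => adj G (Function.invFun ι (ι i)) (Function.invFun ι (ι j))) = adj G := by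
        funext i j
        rw [Function.leftInverse_invFun hinj i, Function.leftInverse_invFun hinj j]
      rwa [h2] at h1

end Pool.Agent.V7H96.HG
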