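import Pool.Agent.V7H96.HG.Color

set_option autoImplicit false

/-!
# Few different rows between two independent sets
-/

namespace Pool.Agent.V7H96.HG

open Finset

theorem sum_choose_le (n d : ℕ) : ∑ k ∈ Iic d, n.choose k ≤ (n + 1) ^ d := by
  have h : ∀ d, ∑ k ∈ range (d + 1), n.choose k ≤ (n + 1) ^ d := by
    intro d
    induction d with
    | zero => simp
    | succ d ih =>
      rw [sum_range_succ]
      have h1 : n.choose (d + 1) ≤ n * (n + 1) ^ d := by
        calc _ ≤ n ^ (d + 1) := Nat.choose_le_pow n (d + 1)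
          _ = n * n ^ d := by ring
          _ ≤ n * (n + 1) ^ d := Nat.mul_le_mul_left _ (Nat.pow_le_pow_left (by omega) d)
      calc _ ≤ (n + 1) ^ d + n * (n + 1) ^ d := Nat.add_le_add ih h1
        _ = (n + 1) ^ (d + 1) := by ring
  rw [← Nat.range_succ_eq_Iic]
  exact h d

theorem rows_le {V : Type*} [Fintype V] [DecidableEq V] (G : SimpleGraph V) {k : ℕ}
    (B : SimpleGraph (Fin k)) (s : Fin k → Bool) (hs : ∀ i j, B.Adj i j → s i ≠ s j)
    (hB : IsEmpty (B ↪g G)) (C C' : Finset V) (hd : Disjoint C C')
    (hC : ∀ x ∈ C, ∀ y ∈ C, ¬ G.Adj x y) (hC' : ∀ x ∈ C', ∀ y ∈ C', ¬ G.Adj x y) :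
    (by classical exact (C.image fun x => C'.filter fun y => G.Adj x y).card) ≤
      (prk G.Adj + 1) ^ k := by
  classical
  obtain ⟨T, hTC, hT, hdet⟩ := determine G.Adj C'
  rw [prk_swap] at hT
  set g : V → Finset T := fun x => univ.filter fun t : T => G.Adj x t with hg
  set f : V → Finset V := fun x => C'.filter fun y => G.Adj x y with hf
  have hgf : ∀ x x', g x = g x' → f x = f x' := by
    intro x x' h
    ext y
    simp only [hf, mem_filter]
    by_cases hy : y ∈ C'
    · simp only [hy, true_and]
      refine hdet x x' (fun z hz => ?_) y hy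
      have := Finset.ext_iff.1 h ⟨z, hz⟩
      simpa [hg] using this
    · simp [hy]
  have h1 : (C.image f).card ≤ (C.image g).card := by
    rcases isEmpty_or_nonempty V with he | he
    · rw [Finset.eq_empty_of_isEmpty C]
      simp
    have h2 : ∀ τ ∈ C.image g, ∃ x, g x = τ := by
      intro τ hτ
      obtain ⟨x, -, hx⟩ := mem_image.1 hτ
      exact ⟨x, hx⟩
    choose! pk hpk using h2
    have : C.image f ⊆ (C.image g).image fun τ => f (pk τ) := by
      intro τ hτ
      obtain ⟨x, hx, rfl⟩ := mem_image.1 hτ
      refine mem_image.2 ⟨g x, mem_image_of_mem _ hx, ?_⟩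
      exact hgf _ _ (hpk _ (mem_image_of_mem _ hx))
    exact (card_le_card this).trans card_image_le
  have h2 : (C.image g).vcDim ≤ k := by
    unfold Finset.vcDim
    refine Finset.sup_le fun S hS => ?_
    rw [mem_shatterer] at hS
    by_contra hcon
    push Not at hcon
    have : Fintype.card (Fin k) ≤ Fintype.card S := by
      rw [Fintype.card_fin, Fintype.card_coe]
      exact hcon.le
    obtain ⟨e⟩ := Function.Embedding.nonempty_of_card_le this
    -- the traces
    have hx : ∀ i : Fin k, ∃ x ∈ C, ∀ u : Fin k, (G.Adj x (e u : T) ↔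
        ((s u = true ∧ B.Adj i u) ∨ u = i)) := by
      intro i
      obtain ⟨τ, hτ, hτ2⟩ := hS (t := (univ.filter fun u : Fin k =>
        ((s u = true ∧ B.Adj i u) ∨ u = i)).image fun u => (e u : T)) (by
          intro z hz
          obtain ⟨u, -, rfl⟩ := mem_image.1 hz
          exact (e u).2)
      obtain ⟨x, hxC, rfl⟩ := mem_image.1 hτ
      refine ⟨x, hxC, fun u => ?_⟩
      have h3 := Finset.ext_iff.1 hτ2 (e u : T)
      have h4 : (e u : T) ∈ S ∩ g x ↔ G.Adj x (e u : T) := by
        simp [hg, (e u).2]
      rw [h4] at h3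
      rw [h3, mem_image]
      constructor
      · rintro ⟨u', hu', he⟩
        have := e.injective (Subtype.ext he)
        subst this
        simpa using hu'
      · intro h
        exact ⟨u, by simpa using h, rfl⟩
    choose x hxC hx using hx
    have heC : ∀ u, ((e u : T) : V) ∈ C' := fun u => hTC (e u : T).2
    set φ : Fin k → V := fun i => if s i = true then ((e i : T) : V) else x i with hφ
    have hinj : Function.Injective φ := by
      intro i j hij
      by_cases hi : s i = true <;> by_cases hj : s j = true <;>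
        simp only [hφ, hi, hj, if_true, if_false, Bool.false_eq_true] at hij
      · exact e.injective (Subtype.ext (Subtype.ext hij))
      · exact absurd (hij ▸ heC i) (Finset.disjoint_left.1 hd (hxC j))
      · exact absurd (hij ▸ heC j) (Finset.disjoint_left.1 hd (hxC i))
      · have h3 := (hx i i).2 (Or.inr rfl)
        rw [hij, hx j i] at h3
        rcases h3 with h3 | h3
        · exact absurd h3.1 hi
        · exact h3
    refine hB.false ⟨⟨φ, hinj⟩, fun {i j} => ?_⟩
    show G.Adj (φ i) (φ j) ↔ B.Adj i j
    by_cases hi : s i = true <;> by_cases hj : s j = true <;>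
        simp only [hφ, hi, hj, if_true, if_false, Bool.false_eq_true]
    · exact ⟨fun h => absurd h (hC' _ (heC i) _ (heC j)), fun h => absurd (hi.trans hj.symm) (hs i j h)⟩
    · rw [G.adj_comm, hx j i, B.adj_comm]
      constructor
      · rintro (h | h)
        · exact h.2
        · exact absurd (h ▸ hi) hj
      · exact fun h => Or.inl ⟨hi, h⟩
    · rw [hx i j]
      constructor
      · rintro (h | h)
        · exact h.2
        · exact absurd (h ▸ hj) hi
      · exact fun h => Or.inl ⟨hj, h⟩
    · refine ⟨fun h => absurd h (hC _ (hxC i) _ (hxC j)), fun h => ?_⟩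
      refine absurd ?_ (hs i j h)
      rw [Bool.not_eq_true] at hi hj
      rw [hi, hj]
  calc (C.image f).card ≤ (C.image g).card := h1
    _ ≤ (C.image g).shatterer.card := card_le_card_shatterer _
    _ ≤ ∑ i ∈ Iic (C.image g).vcDim, (Fintype.card T).choose i := card_shatterer_le_sum_vcDim
    _ ≤ (Fintype.card T + 1) ^ (C.image g).vcDim := sum_choose_le _ _
    _ ≤ (Fintype.card T + 1) ^ k := Nat.pow_le_pow_right (by omega) h2
    _ ≤ (prk G.Adj + 1) ^ k := Nat.pow_le_pow_left (by rw [Fintype.card_coe]; omega) k

end Pool.Agent.V7H96.HG
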